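import Pool.Agent.Work.MP_91103f_lv.Interface

namespace Pool.TriLev.helper31

open Pool.TriLev Pool.Agent.Work.MP_91103f_co

open Classical

/-- a vertex with two children: turning along its level -/
lemma cyc_local {V : Type} {G : SimpleGraph V} {F : Set (Finset V)} (hT : Tri V G F)
    (hLINK : Stmt_LINK) (hNCH : Stmt_NCH) (r y p q cp cq : V) (hy : y ≠ r) (h2 : nch G r y = 2)
    (hp : G.Adj y p) (hq : G.Adj y q) (hpl : G.dist r p = G.dist r y)
    (hql : G.dist r q = G.dist r y) (hpq : p ≠ q) (htp : T3 F y p cp) (hcp : Ch G r y cp)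
    (htq : T3 F y q cq) (hcq : Ch G r y cq) :
    (G.neighborSet y).ncard = 6 ∧ q = z F y p cp 3 ∧ cq = z F y p cp 2 := by
  obtain ⟨a, b, u, hab, hu, hdeg, hal, hch, hzl, hpar⟩ := hLINK hT r y hy
  obtain ⟨hn1, hn2, hn3, hn4, hn5⟩ := hNCH hT r y a b u hy hab hu hdeg hal hch hzl hpar
  have hu2 : u = 2 := by rw [← hn1]; exact h2
  subst hu2
  have h6 := (hT.deg y).2
  have hd : (G.neighborSet y).ncard = 6 := by omega
  have hper := hT.z_per hab
  rw [hd] at hper hpar
  have hz1 : Ch G r y (z F y a b 1) := hch 1 le_rfl (by omega)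
  have hz2 : Ch G r y (z F y a b 2) := hch 2 (by omega) le_rfl
  have hz4 : Ch G r (z F y a b 4) y := hpar 4 le_rfl (by omega)
  have hz5 : Ch G r (z F y a b 5) y := hpar 5 (by omega) (by omega)
  -- children at the end vertices
  have hca : ∀ c, T3 F y a c → Ch G r y c → c = b := by
    intro c h1 h3
    have h4 : T3 F y (z F y a b (5 + 1)) c := by
      rw [show (5 + 1 : ℕ) = 0 + 6 by norm_num, hper 0]
      exact h1
    rcases hT.z_nb hab 5 h4 with h5 | h5
    · exfalso
      rw [h5] at h3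
      have e1 := h3.2
      have e2 := hz5.2
      omega
    · rw [h5, show (5 + 2 : ℕ) = 1 + 6 by norm_num, hper 1]
      rfl
  have hc3 : ∀ c, T3 F y (z F y a b 3) c → Ch G r y c → c = z F y a b 2 := by
    intro c h1 h3
    rcases hT.z_nb hab 2 h1 with h5 | h5
    · exact h5
    · exfalso
      rw [h5] at h3
      have e1 := h3.2
      have e2 := hz4.2
      simp only [Nat.reduceAdd] at e1
      omega
  -- the reversed link
  have hf2 : T3 F y (z F y a b 3) (z F y a b 2) := (hT.z_face hab 2).swap'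
  have hr2 : z F y (z F y a b 3) (z F y a b 2) 2 = z F y a b 1 := by
    rw [show (2 : ℕ) = 0 + 2 by norm_num, z_add_two, z_zero, z_one]
    have h1 := (hT.nx_spec hf2).2.2 (z F y a b 1) ((hT.z_face hab 1).swap')
    rcases h1 with h1 | h1
    · exact absurd h1.symm (hT.z_ne2 hab 1)
    · exact h1.symm
  have hr3 : z F y (z F y a b 3) (z F y a b 2) 3 = a := by
    rw [show (3 : ℕ) = 1 + 2 by norm_num, z_add_two, z_one, hr2]
    have hf1 : T3 F y (z F y a b 2) (z F y a b 1) := (hT.z_face hab 1).swap'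
    have h1 := (hT.nx_spec hf1).2.2 (z F y a b 0) ((hT.z_face hab 0).swap')
    rcases h1 with h1 | h1
    · exact absurd h1.symm (hT.z_ne2 hab 0)
    · rw [← h1]; rfl
  refine ⟨hd, ?_⟩
  have hzl3 : z F y a b (2 + 1) = z F y a b 3 := rfl
  rcases hn4 p hp hpl with h1 | h1 <;> rcases hn4 q hq hql with h3 | h3
  · exact absurd (h1.trans h3.symm) hpq
  · subst h1
    have e1 : cp = b := hca cp htp hcp
    subst e1
    refine ⟨h3, ?_⟩
    apply hc3 cq _ hcq
    rw [← hzl3, ← h3]
    exact htq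
  · rw [hzl3] at h1
    have e1 : cp = z F y a b 2 := hc3 cp (by rw [← h1]; exact htp) hcp
    rw [h1, e1, hr3, hr2]
    refine ⟨h3, ?_⟩
    have := hca cq (by rw [← h3]; exact htq) hcq
    rw [this]
    rfl
  · exact absurd (h1.trans h3.symm) hpq

theorem stmt_CYC (hLINK : Stmt_LINK) (hNCH : Stmt_NCH) (hUPF : Stmt_UPF) : Stmt_CYC := by
  intro V G F hT r m x hm hx hinj hadj hlev hn2
  have hlev' : ∀ t ≤ m, G.dist r (x t) = G.dist r (x 0) := by
    intro t ht
    rcases Nat.lt_or_ge t m with h | h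
    · exact hlev t h
    · have : t = m := by omega
      rw [this, hx]
  have hne : ∀ t ≤ m, x t ≠ r := by
    intro t ht he
    have h1 := hlev' t ht
    rw [he, SimpleGraph.dist_self] at h1
    have h2 := hlev' 1 (by omega)
    rw [← h1] at h2
    have h3 : x 0 = r := ((hT.conn r (x 0)).dist_eq_zero_iff.1 h1.symm).symm
    have h4 : x 1 = r := ((hT.conn r (x 1)).dist_eq_zero_iff.1 h2).symm
    have := hinj 0 1 (by omega) (by omega) (h3.trans h4.symm)
    omega
  have hw : ∀ t, ∃ c, t < m → (Ch G r (x t) c ∧ Ch G r (x (t + 1)) c ∧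
      T3 F (x t) (x (t + 1)) c) := by
    intro t
    by_cases ht : t < m
    · obtain ⟨c, h1, h2, h3, _⟩ := hUPF hT r (x t) (x (t + 1)) (hadj t ht)
        ((hlev' t ht.le).trans (hlev' (t + 1) ht).symm)
      exact ⟨c, fun _ => ⟨h1, h2, h3⟩⟩
    · exact ⟨x 0, fun h => absurd h ht⟩
  choose w hw using hw
  have key : ∀ t, t + 1 < m → (G.neighborSet (x (t + 1))).ncard = 6 ∧
      x (t + 2) = z F (x (t + 1)) (x t) (w t) 3 ∧ w (t + 1) = z F (x (t + 1)) (x t) (w t) 2 := by
    intro t ht
    obtain ⟨h1, h2, h3⟩ := hw t (by omega)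
    obtain ⟨h4, h5, h6⟩ := hw (t + 1) ht
    apply cyc_local hT hLINK hNCH r (x (t + 1)) (x t) (x (t + 2)) (w t) (w (t + 1))
      (hne _ ht.le) (hn2 _ ht) (hadj t (by omega)).symm (hadj (t + 1) ht)
      ((hlev' t (by omega)).trans (hlev' (t + 1) ht.le).symm)
      ((hlev' (t + 2) ht).trans (hlev' (t + 1) ht.le).symm) _ h3.swap h2 h6 h4
    intro he
    rcases Nat.lt_or_ge (t + 2) m with h | h
    · have := hinj t (t + 2) (by omega) h he
      omega
    · have h7 : t + 2 = m := by omega
      rw [h7, hx] at he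
      have := hinj t 0 (by omega) (by omega) he
      omega
  have hloop := hT.loop (x := x) (w := w) (l := fun _ => 3) hm hx hinj (hw 0 (by omega)).2.2.swap
    (fun t ht => ⟨by norm_num, by rw [(key t ht).1]; norm_num⟩) (fun t ht => (key t ht).2.1)
    (fun t ht => (key t ht).2.2)
  rcases hloop with h | h
  · rw [Finset.sum_const, Finset.card_range, smul_eq_mul] at h
    omega
  · rw [Finset.sum_congr rfl (g := fun _ => 3) (fun t ht => by
      rw [Finset.mem_range] at ht
      rw [(key t (by omega)).1]), Finset.sum_const, Finset.card_range, smul_eq_mul] at h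
    omega

end Pool.TriLev.helper31
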