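import Pool.Agent.Work.MP_91103f_lv.Interface

namespace Pool.TriLev.helper31

open Pool.TriLev Pool.Agent.Work.MP_91103f_co

open Classical

variable {V : Type} {G : SimpleGraph V} {r : V}

lemma ch_ne {x c : V} (h : Ch G r x c) : c ≠ r := by
  intro hc
  have h2 := h.2
  rw [hc, SimpleGraph.dist_self] at h2
  omega

lemma up_trans : ∀ (i j : ℕ) (x y z : V), Up G r i x y → Up G r j y z → Up G r (i + j) x z := by
  intro i
  induction i with
  | zero =>
    intro j x y z h1 h2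
    have : x = y := h1
    rw [this, Nat.zero_add]
    exact h2
  | succ i ih =>
    intro j x y z h1 h2
    obtain ⟨c, hc, h3⟩ := h1
    rw [show i + 1 + j = (i + j) + 1 by omega]
    exact ⟨c, hc, ih j c y z h3 h2⟩

lemma up_one {x c : V} (h : Ch G r x c) : Up G r 1 x c := ⟨c, h, rfl⟩

lemma up_last : ∀ (j : ℕ) (x z : V), Up G r (j + 1) x z → ∃ z', Up G r j x z' ∧ Ch G r z' z := by
  intro j
  induction j with
  | zero =>
    intro x z h
    obtain ⟨c, hc, h2⟩ := h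
    have : c = z := h2
    rw [← this]
    exact ⟨x, rfl, hc⟩
  | succ j ih =>
    intro x z h
    obtain ⟨c, hc, h2⟩ := h
    obtain ⟨z', h3, h4⟩ := ih c z h2
    exact ⟨z', ⟨c, hc, h3⟩, h4⟩

lemma up_ne : ∀ (j : ℕ) (x z : V), x ≠ r → Up G r j x z → z ≠ r := by
  intro j
  induction j with
  | zero =>
    intro x z hx h
    have : x = z := h
    rwa [← this]
  | succ j ih =>
    intro x z _ h
    obtain ⟨c, hc, h2⟩ := h
    exact ih c z (ch_ne hc) h2

section

variable (hph : (∀ x, x ≠ r → ∃ c c', c ≠ c' ∧ Ch G r x c ∧ Ch G r x c' ∧ Ch G r c (Phi G r x) ∧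
      Ch G r c' (Phi G r x)) ∧
    (∀ x x', x ≠ r → x' ≠ r → Phi G r x = Phi G r x' → x = x') ∧
    (∀ x y c c', x ≠ r → nch G r x = 2 → c ≠ c' → Ch G r x c → Ch G r x c' → Ch G r c y →
      Ch G r c' y → Phi G r x = y) ∧
    (∀ x, x ≠ r → 3 ≤ nch G r x → Ch G r x (Bet G r x) ∧ 3 ≤ nch G r (Bet G r x) ∧
      ∀ p, Ch G r p (Bet G r x) → p = x))

include hph

lemma phi_up {x : V} (hx : x ≠ r) : Up G r 2 x (Phi G r x) := by
  obtain ⟨c, c', _, h1, _, h3, _⟩ := hph.1 x hx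
  exact ⟨c, h1, _, h3, rfl⟩

lemma phi_ne {x : V} (hx : x ≠ r) : Phi G r x ≠ r := up_ne 2 x _ hx (phi_up hph hx)

lemma phi_iter_ne (k : ℕ) {x : V} (hx : x ≠ r) : (Phi G r)^[k] x ≠ r := by
  induction k with
  | zero => exact hx
  | succ k ih =>
    rw [Function.iterate_succ_apply']
    exact phi_ne hph ih

lemma phi_iter_up (k : ℕ) {x : V} (hx : x ≠ r) : Up G r (2 * k) x ((Phi G r)^[k] x) := by
  induction k with
  | zero => exact rfl
  | succ k ih =>
    rw [Function.iterate_succ_apply', show 2 * (k + 1) = 2 * k + 2 by ring]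
    exact up_trans _ _ _ _ _ ih (phi_up hph (phi_iter_ne hph k hx))

lemma phi_iter_inj (k : ℕ) {x x' : V} (hx : x ≠ r) (hx' : x' ≠ r)
    (h : (Phi G r)^[k] x = (Phi G r)^[k] x') : x = x' := by
  induction k with
  | zero => exact h
  | succ k ih =>
    rw [Function.iterate_succ_apply', Function.iterate_succ_apply'] at h
    exact ih (hph.2.1 _ _ (phi_iter_ne hph k hx) (phi_iter_ne hph k hx') h)

lemma bet_iter (t : ℕ) {x : V} (hx : x ≠ r) (h3 : 3 ≤ nch G r x) :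
    (Bet G r)^[t] x ≠ r ∧ 3 ≤ nch G r ((Bet G r)^[t] x) ∧ Up G r t x ((Bet G r)^[t] x) := by
  induction t with
  | zero => exact ⟨hx, h3, rfl⟩
  | succ t ih =>
    obtain ⟨h4, h5, h6⟩ := ih
    obtain ⟨h7, h8, _⟩ := hph.2.2.2 _ h4 h5
    rw [Function.iterate_succ_apply']
    exact ⟨ch_ne h7, h8, up_trans _ _ _ _ _ h6 (up_one h7)⟩

end

theorem stmt_NEW (hPHI : Stmt_PHI) : Stmt_NEW := by
  intro V G r hL H x hH hx hbad
  have hph := hPHI hL
  have hex : ∃ j, j < H ∧ ∃ z, Up G r j x z ∧ nch G r z ≠ 2 := by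
    by_contra hcon
    apply hbad
    intro j hj z hz
    by_contra h2
    exact hcon ⟨j, hj, z, hz, h2⟩
  have hmin := fun m (hm : m < Nat.find hex) => Nat.find_min hex hm
  obtain ⟨hjH, z, hzu, hz2⟩ := Nat.find_spec hex
  set j := Nat.find hex with hj
  have hzr : z ≠ r := up_ne j x z hx hzu
  have hz3 : 3 ≤ nch G r z := by
    have := hL.two z hzr
    omega
  obtain ⟨t, ht1, htH, hte⟩ : ∃ t, 1 ≤ t ∧ j + t ≤ H ∧ Even (j + t) := by
    rcases Nat.even_or_odd j with h | h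
    · refine ⟨2, by omega, ?_, ?_⟩
      · obtain ⟨a, ha⟩ := hH
        obtain ⟨b, hb⟩ := h
        omega
      · exact h.add even_two
    · exact ⟨1, le_rfl, hjH, h.add_one⟩
  obtain ⟨hbr, hb3, hbu⟩ := bet_iter hph t hzr hz3
  obtain ⟨a, ha⟩ := hH
  obtain ⟨b, hb⟩ := hte
  have hk : j + t + 2 * ((H - j - t) / 2) = H := by omega
  refine ⟨z, j, t, hjH, hzu, ht1, htH, ⟨b, hb⟩, ?_, ?_, ?_⟩
  · by_cases hdeg : 7 ≤ (G.neighborSet z).ncard
    · exact Or.inl hdeg
    right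
    have hun := hL.deg7 z hzr hz3 (by omega)
    rcases Nat.eq_zero_or_pos j with hj0 | hj0
    · rw [hj0] at hzu
      have hxz : x = z := hzu
      exact ⟨hxz.symm, hj0, by rw [hxz]; exact hun⟩
    · exfalso
      obtain ⟨j', hj'⟩ : ∃ j', j = j' + 1 := ⟨j - 1, by omega⟩
      rw [hj'] at hzu
      obtain ⟨z', hz'u, hz'c⟩ := up_last j' x z hzu
      have hz'r : z' ≠ r := up_ne j' x z' hx hz'u
      have hz'2 : nch G r z' = 2 := by
        by_contra h2
        exact hmin j' (by omega) ⟨by omega, z', hz'u, h2⟩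
      obtain ⟨p, hp1, hp2⟩ := hL.shr z' z hz'r hz'2 hz'c
      obtain ⟨q, hq⟩ := hun
      exact hp1 ((hq p hp2).trans (hq z' hz'c).symm)
  · have h1 := up_trans _ _ _ _ _ (up_trans _ _ _ _ _ hzu hbu)
      (phi_iter_up hph ((H - j - t) / 2) hbr)
    rwa [hk] at h1
  · intro x' hx' _ heq
    have hH2 : H / 2 = (H - j - t) / 2 + (b - 1 + 1) := by omega
    rw [hH2, Function.iterate_add_apply] at heq
    have h1 := phi_iter_inj hph _ (phi_iter_ne hph _ hx') hbr heq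
    rw [Function.iterate_succ_apply'] at h1
    obtain ⟨c, c', hcc, _, _, h4, h5⟩ := hph.1 _ (phi_iter_ne hph (b - 1) hx')
    rw [h1] at h4 h5
    obtain ⟨t', ht'⟩ : ∃ t', t = t' + 1 := ⟨t - 1, by omega⟩
    rw [ht', Function.iterate_succ_apply'] at h4 h5
    obtain ⟨hbr', hb3', _⟩ := bet_iter hph t' hzr hz3
    have h6 := (hph.2.2.2 _ hbr' hb3').2.2
    exact hcc ((h6 c h4).trans (h6 c' h5).symm)

end Pool.TriLev.helper31
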